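import Pool.Graph.R_pool_sql_team_seeded_64922ed1.X289.Lin
import Pool.Graph.R_pool_sql_team_seeded_64922ed1.X289.Sat

set_option autoImplicit false

/-!
# Polynomials in `2 cos t` and the measure of Sato and Tate
-/

namespace Pool.Agent.H1.SatoTate

open Filter Topology MeasureTheory
open Polynomial (X C)

/-- the trace of `Sym^k` of `diag(z, 1/z)` -/
noncomputable def symTr (k : ℕ) (z : ℂ) : ℂ := ∑ j ∈ Finset.range (k + 1), z ^ (k - j) * z⁻¹ ^ j

theorem symTr_zero (z : ℂ) : symTr 0 z = 1 := by simp [symTr]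

theorem symTr_one (z : ℂ) : symTr 1 z = z + z⁻¹ := by
  simp [symTr, Finset.sum_range_succ]

theorem symTr_succ (k : ℕ) (z : ℂ) : symTr (k + 1) z = z * symTr k z + z⁻¹ ^ (k + 1) := by
  unfold symTr
  rw [Finset.sum_range_succ, Finset.mul_sum]
  congr 1
  · refine Finset.sum_congr rfl fun j hj => ?_
    have hj' : j ≤ k := by
      have := Finset.mem_range.1 hj
      omega
    rw [show k + 1 - j = (k - j) + 1 by omega, pow_succ]
    ring
  · simp

theorem symTr_succ' (k : ℕ) (z : ℂ) : symTr (k + 1) z = z ^ (k + 1) + z⁻¹ * symTr k z := by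
  unfold symTr
  rw [Finset.sum_range_succ', Finset.mul_sum, add_comm]
  congr 1
  · simp
  · refine Finset.sum_congr rfl fun j hj => ?_
    rw [show k + 1 - (j + 1) = k - j by omega, pow_succ]
    ring

theorem symTr_rec (k : ℕ) {z : ℂ} (hz : z ≠ 0) :
    symTr (k + 2) z = (z + z⁻¹) * symTr (k + 1) z - symTr k z := by
  rw [symTr_succ (k + 1) z, add_mul]
  have h : z⁻¹ * symTr (k + 1) z = symTr k z + z⁻¹ ^ (k + 2) := by
    rw [symTr_succ k z, mul_add, ← mul_assoc, inv_mul_cancel₀ hz, one_mul]
    ring
  rw [h]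
  ring

/-- the polynomials `S_k`, `S_k(z + 1/z) = tr Sym^k diag(z, 1/z)` -/
noncomputable def S : ℕ → Polynomial ℝ
  | 0 => 1
  | 1 => X
  | (k + 2) => X * S (k + 1) - S k

theorem S_eval {z : ℂ} (hz : z ≠ 0) {x : ℝ} (hx : (x : ℂ) = z + z⁻¹) (k : ℕ) :
    (((S k).eval x : ℝ) : ℂ) = symTr k z := by
  induction k using Nat.strong_induction_on with
  | _ k ih =>
    match k with
    | 0 => simp [S, symTr_zero]
    | 1 => simp [S, symTr_one, hx]
    | (k + 2) =>
      have h0 := ih k (by omega)
      have h1 := ih (k + 1) (by omega)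
      rw [symTr_rec k hz, ← h0, ← h1, ← hx]
      simp [S]

theorem span_S : Submodule.span ℝ (Set.range S) = ⊤ := by
  have hmul : ∀ p ∈ Submodule.span ℝ (Set.range S), X * p ∈ Submodule.span ℝ (Set.range S) := by
    intro p hp
    induction hp using Submodule.span_induction with
    | mem x h =>
      obtain ⟨k, rfl⟩ := h
      match k with
      | 0 =>
        have : X * S 0 = S 1 := by simp [S]
        rw [this]
        exact Submodule.subset_span ⟨1, rfl⟩
      | (k + 1) =>
        have : X * S (k + 1) = S (k + 2) + S k := by simp [S]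
        rw [this]
        exact add_mem (Submodule.subset_span ⟨k + 2, rfl⟩) (Submodule.subset_span ⟨k, rfl⟩)
    | zero => simp
    | add x y _ _ h1 h2 => rw [mul_add]; exact add_mem h1 h2
    | smul a x _ h => rw [mul_smul_comm]; exact Submodule.smul_mem _ a h
  have hpow : ∀ n : ℕ, (X : Polynomial ℝ) ^ n ∈ Submodule.span ℝ (Set.range S) := by
    intro n
    induction n with
    | zero => exact Submodule.subset_span ⟨0, by simp [S]⟩
    | succ n ih => rw [pow_succ']; exact hmul _ ih
  rw [eq_top_iff]
  intro p _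
  induction p using Polynomial.induction_on' with
  | add p q hp hq => exact add_mem (hp trivial) (hq trivial)
  | monomial n a =>
    rw [← Polynomial.C_mul_X_pow_eq_monomial, ← Polynomial.smul_eq_C_mul]
    exact Submodule.smul_mem _ a (hpow n)

theorem exists_co (p : Polynomial ℝ) : ∃ c : ℕ →₀ ℝ, (c.sum fun k a => a • S k) = p := by
  rw [← Finsupp.mem_span_range_iff_exists_finsupp, span_S]
  trivial

/-- the coefficients -/
noncomputable def co (p : Polynomial ℝ) : ℕ →₀ ℝ := (exists_co p).choose

theorem co_spec (p : Polynomial ℝ) : ((co p).sum fun k a => a • S k) = p := (exists_co p).choose_spec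

theorem S_sin (k : ℕ) (t : ℝ) : (S k).eval (2 * Real.cos t) * Real.sin t = Real.sin ((k + 1) * t) := by
  induction k using Nat.strong_induction_on with
  | _ k ih =>
    match k with
    | 0 => simp [S]
    | 1 =>
      simp only [S, Polynomial.eval_X, Nat.cast_one]
      rw [show ((1 : ℝ) + 1) * t = 2 * t by ring, Real.sin_two_mul]
      ring
    | (k + 2) =>
      have h0 := ih k (by omega)
      have h1 := ih (k + 1) (by omega)
      have e : (S (k + 2)).eval (2 * Real.cos t) * Real.sin t =
          2 * Real.cos t * ((S (k + 1)).eval (2 * Real.cos t) * Real.sin t) -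
            (S k).eval (2 * Real.cos t) * Real.sin t := by
        simp only [S, Polynomial.eval_sub, Polynomial.eval_mul, Polynomial.eval_X]
        ring
      rw [e, h0, h1]
      have a1 : (((k + 2 : ℕ) : ℝ) + 1) * t = (((k + 1 : ℕ) : ℝ) + 1) * t + t := by push_cast; ring
      have a2 : ((k : ℝ) + 1) * t = (((k + 1 : ℕ) : ℝ) + 1) * t - t := by push_cast; ring
      rw [a1, a2, Real.sin_add, Real.sin_sub]
      ring

theorem int_cos (n : ℕ) (hn : 0 < n) : ∫ t in (0 : ℝ)..Real.pi, Real.cos (n * t) = 0 := by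
  have hn' : (n : ℝ) ≠ 0 := by exact_mod_cast hn.ne'
  rw [intervalIntegral.integral_comp_mul_left (fun x => Real.cos x) hn']
  simp [Real.sin_nat_mul_pi]

/-- orthogonality to the constants -/
theorem orth (k : ℕ) : ∫ t in (0 : ℝ)..Real.pi, (S k).eval (2 * Real.cos t) * (2 / Real.pi * Real.sin t ^ 2) =
    if k = 0 then 1 else 0 := by
  have hpi : Real.pi ≠ 0 := Real.pi_ne_zero
  have e : ∀ t : ℝ, (S k).eval (2 * Real.cos t) * (2 / Real.pi * Real.sin t ^ 2) =
      1 / Real.pi * (Real.cos (k * t) - Real.cos (((k + 2 : ℕ) : ℝ) * t)) := by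
    intro t
    have h1 := S_sin k t
    have a1 : (k : ℝ) * t = (k + 1) * t - t := by ring
    have a2 : ((k + 2 : ℕ) : ℝ) * t = (k + 1) * t + t := by push_cast; ring
    rw [a1, a2, Real.cos_sub, Real.cos_add, ← h1]
    ring
  simp only [e]
  rw [intervalIntegral.integral_const_mul, intervalIntegral.integral_sub, int_cos (k + 2) (by omega)]
  · by_cases hk : k = 0
    · subst hk
      simp [hpi]
    · rw [int_cos k (by omega), if_neg hk]
      simp
  · exact (Real.continuous_cos.comp (continuous_const.mul continuous_id)).intervalIntegrable _ _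
  · exact (Real.continuous_cos.comp (continuous_const.mul continuous_id)).intervalIntegrable _ _

/-- the measure of Sato and Tate of a set of angles -/
noncomputable def st (A : Set ℝ) : ℝ := ∫ t in A ∩ Set.Icc 0 Real.pi, 2 / Real.pi * Real.sin t ^ 2

/-- the mean value of a polynomial in `2 cos t` -/
noncomputable def mean (p : Polynomial ℝ) : ℝ :=
  ∫ t in (0 : ℝ)..Real.pi, p.eval (2 * Real.cos t) * (2 / Real.pi * Real.sin t ^ 2)

theorem co_zero (p : Polynomial ℝ) : co p 0 = mean p := by
  unfold mean
  conv_rhs => rw [← co_spec p]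
  have e : ∀ t : ℝ, ((co p).sum fun k a => a • S k).eval (2 * Real.cos t) * (2 / Real.pi * Real.sin t ^ 2) =
      ∑ k ∈ (co p).support, co p k * ((S k).eval (2 * Real.cos t) * (2 / Real.pi * Real.sin t ^ 2)) := by
    intro t
    rw [Finsupp.sum, Polynomial.eval_finsetSum, Finset.sum_mul]
    refine Finset.sum_congr rfl fun k _ => ?_
    rw [Polynomial.eval_smul, smul_eq_mul]
    ring
  simp only [e]
  rw [intervalIntegral.integral_finsetSum]
  · simp only [intervalIntegral.integral_const_mul, orth]
    simp only [mul_ite, mul_one, mul_zero, Finset.sum_ite_eq', Finsupp.mem_support_iff]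
    split_ifs with h
    · rfl
    · simpa using h
  · intro k _
    refine Continuous.intervalIntegrable ?_ _ _
    fun_prop

theorem weight_le (t : ℝ) : 2 / Real.pi * Real.sin t ^ 2 ≤ 1 := by
  have h1 : Real.sin t ^ 2 ≤ 1 := Real.sin_sq_le_one t
  have h2 : 2 / Real.pi ≤ 1 := by
    rw [div_le_one Real.pi_pos]
    exact (Real.two_le_pi)
  have h3 : 0 ≤ 2 / Real.pi := by positivity
  nlinarith [sq_nonneg (Real.sin t)]

theorem weight_nonneg (t : ℝ) : 0 ≤ 2 / Real.pi * Real.sin t ^ 2 := by
  have := Real.pi_pos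
  positivity

theorem mean_one : mean 1 = 1 := by
  have := orth 0
  simpa [mean, S] using this

/-- **A majorant** -/
theorem majorant {F : Set ℝ} (hF : IsClosed F) {ε : ℝ} (hε : 0 < ε) : ∃ p : Polynomial ℝ,
    (∀ x ∈ Set.Icc (-2 : ℝ) 2, 0 ≤ p.eval x ∧ p.eval x ≤ 1 + ε) ∧
    (∀ t ∈ F, t ∈ Set.Icc 0 Real.pi → 1 ≤ p.eval (2 * Real.cos t)) ∧ mean p ≤ st F + ε := by
  set ε' : ℝ := ε / 4 with hε'
  have hε'0 : 0 < ε' := by positivity
  set μ : Measure ℝ := volume.restrict (Set.Icc 0 Real.pi) with hμ
  have hδ : ∀ n : ℕ, (0 : ℝ) < 1 / ((n : ℝ) + 1) := fun n => by positivity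
  have h1 := tendsto_integral_thickenedIndicator_of_isClosed μ hF hδ tendsto_one_div_add_atTop_nhds_zero_nat
  obtain ⟨n, hn⟩ := (h1.eventually (gt_mem_nhds (show μ.real F < μ.real F + ε' by linarith))).exists
  set φ : ℝ → ℝ := fun t => (thickenedIndicator (hδ n) F t : ℝ) with hφ
  have hφc : Continuous φ := by
    rw [hφ]
    fun_prop
  have hφ0 : ∀ t, 0 ≤ φ t := fun t => NNReal.coe_nonneg _
  have hφ1 : ∀ t, φ t ≤ 1 := fun t => by
    have h2 := thickenedIndicator_le_one (hδ n) F t
    show ((thickenedIndicator (hδ n) F t : NNReal) : ℝ) ≤ 1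
    exact_mod_cast h2
  have hφF : ∀ t ∈ F, φ t = 1 := fun t ht => by
    have := thickenedIndicator_one (hδ n) F ht
    rw [hφ]
    simp only
    rw [this]
    simp
  set g : ℝ → ℝ := fun x => φ (Real.arccos (x / 2)) + ε' with hg
  have hgc : Continuous g := by
    rw [hg]
    exact (hφc.comp (Real.continuous_arccos.comp (continuous_id.div_const 2))).add continuous_const
  obtain ⟨p, hp⟩ := exists_polynomial_near_of_continuousOn (-2) 2 g hgc.continuousOn ε' hε'0
  have harc : ∀ t ∈ Set.Icc 0 Real.pi, g (2 * Real.cos t) = φ t + ε' := by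
    intro t ht
    rw [hg]
    simp only
    rw [mul_div_cancel_left₀ _ (two_ne_zero), Real.arccos_cos ht.1 ht.2]
  have hcos : ∀ t : ℝ, 2 * Real.cos t ∈ Set.Icc (-2 : ℝ) 2 := fun t => by
    have h2 := Real.neg_one_le_cos t
    have h3 := Real.cos_le_one t
    constructor <;> linarith
  refine ⟨p, fun x hx => ?_, fun t ht ht2 => ?_, ?_⟩
  · have h2 := abs_lt.1 (hp x hx)
    have h3 : g x = φ (Real.arccos (x / 2)) + ε' := rfl
    have h4 := hφ0 (Real.arccos (x / 2))
    have h5 := hφ1 (Real.arccos (x / 2))
    constructor <;> linarith [h2.1, h2.2]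
  · have h2 := abs_lt.1 (hp _ (hcos t))
    rw [harc t ht2, hφF t ht] at h2
    linarith [h2.1]
  · have hle : mean p ≤ ∫ t in (0 : ℝ)..Real.pi, (φ t + 2 * ε') * (2 / Real.pi * Real.sin t ^ 2) := by
      refine intervalIntegral.integral_mono_on Real.pi_pos.le ?_ ?_ fun t ht => ?_
      · exact Continuous.intervalIntegrable (by fun_prop) _ _
      · exact Continuous.intervalIntegrable (by fun_prop) _ _
      · refine mul_le_mul_of_nonneg_right ?_ (weight_nonneg t)
        have h2 := abs_lt.1 (hp _ (hcos t))
        rw [harc t ht] at h2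
        linarith [h2.2]
    have hw : ∫ t in (0 : ℝ)..Real.pi, (2 / Real.pi * Real.sin t ^ 2) = 1 := by
      have := orth 0
      simpa [S] using this
    have e1 : ∫ t in (0 : ℝ)..Real.pi, (φ t + 2 * ε') * (2 / Real.pi * Real.sin t ^ 2) =
        (∫ t in (0 : ℝ)..Real.pi, φ t * (2 / Real.pi * Real.sin t ^ 2)) + 2 * ε' := by
      have : ∀ t : ℝ, (φ t + 2 * ε') * (2 / Real.pi * Real.sin t ^ 2) =
        φ t * (2 / Real.pi * Real.sin t ^ 2) + 2 * ε' * (2 / Real.pi * Real.sin t ^ 2) := fun t => by ring
      simp only [this]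
      rw [intervalIntegral.integral_add, intervalIntegral.integral_const_mul, hw, mul_one]
      · exact Continuous.intervalIntegrable (by fun_prop) _ _
      · exact Continuous.intervalIntegrable (by fun_prop) _ _
    have hmF : MeasurableSet F := hF.measurableSet
    have e2 : ∫ t in (0 : ℝ)..Real.pi, φ t * (2 / Real.pi * Real.sin t ^ 2) ≤ st F + ε' := by
      rw [intervalIntegral.integral_of_le Real.pi_pos.le, ← integral_Icc_eq_integral_Ioc]
      have hst : st F = ∫ t, F.indicator (fun t => 2 / Real.pi * Real.sin t ^ 2) t ∂μ := by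
        rw [integral_indicator hmF, hμ, Measure.restrict_restrict hmF]
        rfl
      have hint1 : Integrable (fun t => φ t * (2 / Real.pi * Real.sin t ^ 2)) μ := by
        refine ContinuousOn.integrableOn_Icc ?_
        exact Continuous.continuousOn (by fun_prop)
      have hint2 : Integrable (F.indicator fun t => 2 / Real.pi * Real.sin t ^ 2) μ := by
        refine Integrable.indicator ?_ hmF
        refine ContinuousOn.integrableOn_Icc ?_
        exact Continuous.continuousOn (by fun_prop)
      have hint3 : Integrable φ μ := integrable_thickenedIndicator F (hδ n)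
      have hint4 : Integrable (F.indicator fun _ => (1 : ℝ)) μ :=
        (integrable_const (1 : ℝ)).indicator hmF
      have h2 : ∫ t, (φ t * (2 / Real.pi * Real.sin t ^ 2) -
          F.indicator (fun t => 2 / Real.pi * Real.sin t ^ 2) t) ∂μ ≤
          ∫ t, (φ t - F.indicator (fun _ => (1 : ℝ)) t) ∂μ := by
        refine integral_mono (hint1.sub hint2) (hint3.sub hint4) fun t => ?_
        simp only
        by_cases ht : t ∈ F
        · rw [Set.indicator_of_mem ht, Set.indicator_of_mem ht, hφF t ht]
          simp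
        · rw [Set.indicator_of_notMem ht, Set.indicator_of_notMem ht, sub_zero, sub_zero]
          have := hφ0 t
          have h3 := weight_le t
          nlinarith
      rw [integral_sub hint1 hint2, integral_sub hint3 hint4, ← hst, integral_indicator_const _ hmF] at h2
      rw [smul_eq_mul, mul_one] at h2
      linarith
    linarith

end Pool.Agent.H1.SatoTate
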