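import Pool.Agent.H1.SatoTateLin

set_option autoImplicit false

/-!
# The density bounds
-/

namespace Pool.Agent.H1.SatoTate

open Filter Topology MeasureTheory
open Polynomial (X C)
open Pool.Agent.X289.Many (UD)
open Pool.Agent.X289.Lin (term)
open Pool.Agent.X289.RSD (log_bound)

/-- the logarithm of an `L`-function: convergence and order of the pole -/
structure Nice {P : Type*} (q : P → ℕ) (f : P → ℕ → ℂ) (e : ℤ) : Prop where
  conv : ∀ s : ℝ, 1 < s → Summable (term q f s)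
  order : ∃ Λ : ℂ → ℂ, MeromorphicAt Λ 1 ∧ meromorphicOrderAt Λ 1 = ((-e : ℤ) : WithTop ℤ) ∧
    ∀ᶠ s in 𝓝 (1 : ℂ), (1 : ℝ) < s.re → Λ s = Complex.exp (∑' x, term q f s x)

theorem st_nonneg (A : Set ℝ) : 0 ≤ st A := integral_nonneg fun t => weight_nonneg t

theorem weight_integrable : IntegrableOn (fun t : ℝ => 2 / Real.pi * Real.sin t ^ 2) (Set.Icc 0 Real.pi) :=
  ContinuousOn.integrableOn_Icc (Continuous.continuousOn (by fun_prop))

theorem st_univ : st Set.univ = 1 := by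
  have := orth 0
  simp only [S, Polynomial.eval_one, one_mul, if_true] at this
  rw [st, Set.univ_inter, integral_Icc_eq_integral_Ioc, ← intervalIntegral.integral_of_le Real.pi_pos.le]
  exact this

theorem st_mono {A B : Set ℝ} (h : A ⊆ B) : st A ≤ st B :=
  setIntegral_mono_set (weight_integrable.mono_set Set.inter_subset_right)
    (ae_of_all _ fun t => weight_nonneg t) (Set.inter_subset_inter_left _ h).eventuallyLE

theorem st_le_one (A : Set ℝ) : st A ≤ 1 := (st_mono (Set.subset_univ A)).trans st_univ.le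

theorem st_congr {A B : Set ℝ} (h : A =ᵐ[volume] B) : st A = st B :=
  setIntegral_congr_set (h.inter (ae_eq_refl _))

theorem st_compl {A : Set ℝ} (hA : MeasurableSet A) : st A + st Aᶜ = 1 := by
  rw [← st_univ, st, st, st, Set.univ_inter]
  rw [← setIntegral_union]
  · rw [← Set.union_inter_distrib_right, Set.union_compl_self, Set.univ_inter]
  · exact Set.disjoint_of_subset Set.inter_subset_left Set.inter_subset_left disjoint_compl_right
  · exact hA.compl.inter measurableSet_Icc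
  · exact weight_integrable.mono_set Set.inter_subset_right
  · exact weight_integrable.mono_set Set.inter_subset_right

theorem mean_mul_le {p : Polynomial ℝ} {ε : ℝ}
    (h : ∀ x ∈ Set.Icc (-2 : ℝ) 2, 0 ≤ p.eval x ∧ p.eval x ≤ 1 + ε) : mean (p * p) ≤ (1 + ε) * mean p := by
  unfold mean
  rw [← intervalIntegral.integral_const_mul]
  refine intervalIntegral.integral_mono_on Real.pi_pos.le ?_ ?_ fun t _ => ?_
  · exact Continuous.intervalIntegrable (by fun_prop) _ _
  · exact Continuous.intervalIntegrable (by fun_prop) _ _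
  · have hcos : 2 * Real.cos t ∈ Set.Icc (-2 : ℝ) 2 := by
      have h2 := Real.neg_one_le_cos t
      have h3 := Real.cos_le_one t
      constructor <;> linarith
    obtain ⟨h1, h2⟩ := h _ hcos
    rw [Polynomial.eval_mul]
    have h3 := weight_nonneg t
    have h4 : p.eval (2 * Real.cos t) * p.eval (2 * Real.cos t) ≤ (1 + ε) * p.eval (2 * Real.cos t) :=
      mul_le_mul_of_nonneg_right h2 h1
    calc _ ≤ ((1 + ε) * p.eval (2 * Real.cos t)) * (2 / Real.pi * Real.sin t ^ 2) :=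
          mul_le_mul_of_nonneg_right h4 h3
      _ = _ := by ring

/-- the point of the unit circle -/
noncomputable def pt (t : ℝ) : ℂ := Complex.exp (t * Complex.I)

theorem pt_ne (t : ℝ) : pt t ≠ 0 := Complex.exp_ne_zero _

theorem pt_pow (t : ℝ) (k : ℕ) : ((2 * Real.cos (k * t) : ℝ) : ℂ) = pt t ^ k + (pt t ^ k)⁻¹ := by
  unfold pt
  rw [← Complex.exp_nat_mul, ← Complex.exp_neg]
  push_cast
  rw [show (k : ℂ) * (t * Complex.I) = (k * t : ℂ) * Complex.I by ring,
    show -((k * t : ℂ) * Complex.I) = -(k * t : ℂ) * Complex.I by ring]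
  rw [Complex.two_cos]

section

variable {P I : Type*} [Fintype I] [DecidableEq I] {q : P → ℕ} (hq : ∀ v, 1 < q v) {i0 : I}
  {θ : P → ℝ} (hθ : ∀ v, θ v ∈ Set.Icc 0 Real.pi) {A : I → P → ℕ → ℝ} (hA0 : ∀ v k, A i0 v k = 1)
  (hs : ∀ n i, Nice q (fun v k => symTr n (pt (θ v) ^ (k + 1)) * (A i v k : ℂ)) (if n = 0 ∧ i = i0 then 1 else 0))
  (hs' : ∀ i j, Nice q (fun v k => (A i v k : ℂ) * (A j v k : ℂ)) (if i = j then 1 else 0))

include hq hθ hs hs'

/-- the first bound: `g` a nonnegative combination of the `A_i` with the constant term `g i0` -/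
theorem first {F : Set ℝ} (hF : IsClosed F) (g : I → ℝ) (hg0 : 0 ≤ g i0) (hg : ∀ v k, 0 ≤ ∑ i, g i * A i v k)
    {Y : ℝ} (hY : 0 < Y) {B : Set P} (hB : ∀ v ∈ B, θ v ∈ F ∧ Y ≤ ∑ i, g i * A i v 0) :
    UD q B (g i0 * st F / Y) := by
  refine ud_of_forall fun ε hε => ?_
  set ε' : ℝ := ε * Y / (g i0 + 1) with hε'
  have hε'0 : 0 < ε' := by positivity
  obtain ⟨p, hp1, hp2, hp3⟩ := majorant hF hε'0
  have hcos : ∀ t : ℝ, 2 * Real.cos t ∈ Set.Icc (-2 : ℝ) 2 := fun t => by
    have h2 := Real.neg_one_le_cos t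
    have h3 := Real.cos_le_one t
    constructor <;> linarith
  have h1 := lin2 hq (i0 := i0) (z := fun v => pt (θ v)) (fun v => pt_ne _)
    (x := fun v k => 2 * Real.cos (((k + 1 : ℕ) : ℝ) * θ v)) (fun v k => pt_pow _ _)
    (A := fun i v k => (A i v k : ℂ))
    (fun n i s h => (hs n i).conv s h) (fun n i => (hs n i).order)
    (fun i j s h => (hs' i j).conv s h) (fun i j => (hs' i j).order)
    (fun i => C (g i) * p) (fun _ _ => 0)
    (fun v k => p.eval (2 * Real.cos (((k + 1 : ℕ) : ℝ) * θ v)) * ∑ i, g i * A i v k)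
    (fun v k => mul_nonneg (hp1 _ (hcos _)).1 (hg v k))
    (fun v k => by
      simp only [Complex.ofReal_zero, zero_mul, Finset.sum_const_zero, add_zero]
      push_cast
      rw [Finset.mul_sum]
      refine Finset.sum_congr rfl fun i _ => ?_
      rw [Polynomial.eval_mul, Polynomial.eval_C]
      push_cast
      ring) (B := B) hY
    (fun v hv => by
      obtain ⟨h2, h3⟩ := hB v hv
      have h4 := hp2 (θ v) h2 (hθ v)
      simp only [zero_add, Nat.cast_one, one_mul]
      nlinarith)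
  have h2 : mean (C (g i0) * p) = g i0 * mean p := by
    unfold mean
    rw [← intervalIntegral.integral_const_mul]
    refine intervalIntegral.integral_congr fun t _ => ?_
    simp only [Polynomial.eval_mul, Polynomial.eval_C]
    ring
  simp only [Finset.sum_const_zero, add_zero] at h1
  rw [h2] at h1
  have h3 : g i0 * mean p / Y ≤ g i0 * st F / Y + ε := by
    rw [div_add' _ _ _ hY.ne', div_le_div_iff_of_pos_right hY]
    have h4 : g i0 * mean p ≤ g i0 * (st F + ε') := mul_le_mul_of_nonneg_left hp3 hg0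
    have h5 : g i0 * ε' ≤ ε * Y := by
      rw [hε', ← mul_div_assoc, div_le_iff₀ (by linarith)]
      nlinarith [mul_pos hε hY]
    linarith
  intro η hη
  filter_upwards [h1 η hη, Pool.Agent.X289.RSD.log_atTop.eventually (eventually_ge_atTop 0)] with s h4 h5
  exact ⟨h4.1, h4.2.trans (mul_le_mul_of_nonneg_right (by linarith) h5)⟩

include hA0

/-- the second bound: by the inequality of Bessel -/
theorem second {F : Set ℝ} (hF : IsClosed F) (e : I → ℝ) (he0 : e i0 = 0) {B : Set P}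
    (hB : ∀ v ∈ B, θ v ∈ F ∧ ∑ i, e i ^ 2 ≤ ∑ i, e i * A i v 0) :
    UD q B (st F / (1 + st F * ∑ i, e i ^ 2)) := by
  set R : ℝ := ∑ i, e i ^ 2 with hR
  have hR0 : 0 ≤ R := Finset.sum_nonneg fun i _ => sq_nonneg _
  set μ : ℝ := st F with hμ
  have hμ0 : 0 ≤ μ := st_nonneg F
  have hμ1 : μ ≤ 1 := st_le_one F
  have hX : 0 < (1 + μ * R) ^ 2 := by positivity
  refine ud_of_forall fun ε hε => ?_
  set ε' : ℝ := min 1 (ε / 3) with hε'
  have hε'0 : 0 < ε' := lt_min one_pos (by positivity)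
  have hε'1 : ε' ≤ 1 := min_le_left _ _
  have hε'2 : 3 * ε' ≤ ε := by
    have := min_le_right 1 (ε / 3)
    linarith
  obtain ⟨p, hp1, hp2, hp3⟩ := majorant hF hε'0
  have h1 := lin2 hq (i0 := i0) (z := fun v => pt (θ v)) (fun v => pt_ne _)
    (x := fun v k => 2 * Real.cos (((k + 1 : ℕ) : ℝ) * θ v)) (fun v k => pt_pow _ _)
    (A := fun i v k => (A i v k : ℂ))
    (fun n i s h => (hs n i).conv s h) (fun n i => (hs n i).order)
    (fun i j s h => (hs' i j).conv s h) (fun i j => (hs' i j).order)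
    (fun i => if i = i0 then p * p else C (2 * μ * e i) * p) (fun i j => μ ^ 2 * (e i * e j))
    (fun v k => (p.eval (2 * Real.cos (((k + 1 : ℕ) : ℝ) * θ v)) + μ * ∑ i, e i * A i v k) ^ 2)
    (fun v k => sq_nonneg _)
    (fun v k => by
      set y := p.eval (2 * Real.cos (((k + 1 : ℕ) : ℝ) * θ v)) with hy
      have e1 : (∑ i, (((if i = i0 then p * p else C (2 * μ * e i) * p).eval
          (2 * Real.cos (((k + 1 : ℕ) : ℝ) * θ v)) : ℝ) : ℂ) * (A i v k : ℂ)) =
          ((y ^ 2 + 2 * μ * y * ∑ i, e i * A i v k : ℝ) : ℂ) := by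
        have e2 : ∀ i, (((if i = i0 then p * p else C (2 * μ * e i) * p).eval
            (2 * Real.cos (((k + 1 : ℕ) : ℝ) * θ v)) : ℝ) : ℂ) * (A i v k : ℂ) =
            (((if i = i0 then y ^ 2 else 0) + 2 * μ * y * (e i * A i v k) : ℝ) : ℂ) := by
          intro i
          by_cases hi : i = i0
          · subst hi
            simp only [if_true, Polynomial.eval_mul, hA0, he0, ← hy]
            push_cast
            ring
          · simp only [if_neg hi, Polynomial.eval_mul, Polynomial.eval_C, ← hy]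
            push_cast
            ring
        rw [Finset.sum_congr rfl fun i _ => e2 i, ← Complex.ofReal_sum, Finset.sum_add_distrib,
          Finset.sum_ite_eq' Finset.univ i0, if_pos (Finset.mem_univ _), ← Finset.mul_sum]
      have e3 : (∑ i, ∑ j, ((μ ^ 2 * (e i * e j) : ℝ) : ℂ) * ((A i v k : ℂ) * (A j v k : ℂ))) =
          (((μ * ∑ i, e i * A i v k) ^ 2 : ℝ) : ℂ) := by
        have e4 : ((μ * ∑ i, e i * A i v k) ^ 2 : ℝ) = ∑ i, ∑ j, μ ^ 2 * (e i * e j) * (A i v k * A j v k) := by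
          rw [mul_pow, sq (∑ i, e i * A i v k), Finset.sum_mul_sum, Finset.mul_sum]
          refine Finset.sum_congr rfl fun i _ => ?_
          rw [Finset.mul_sum]
          refine Finset.sum_congr rfl fun j _ => ?_
          ring
        rw [e4]
        push_cast
        rfl
      rw [e1, e3, ← Complex.ofReal_add]
      congr 1
      ring) (B := B) hX
    (fun v hv => by
      obtain ⟨h2, h3⟩ := hB v hv
      have h4 := hp2 (θ v) h2 (hθ v)
      simp only [zero_add, Nat.cast_one, one_mul]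
      refine pow_le_pow_left₀ (by positivity) ?_ 2
      have h5 : μ * R ≤ μ * ∑ i, e i * A i v 0 := mul_le_mul_of_nonneg_left h3 hμ0
      linarith)
  simp only [if_true] at h1
  have h2 : (∑ i, μ ^ 2 * (e i * e i)) = μ ^ 2 * R := by
    rw [hR, Finset.mul_sum]
    exact Finset.sum_congr rfl fun i _ => by ring
  rw [h2] at h1
  have h3 := mean_mul_le hp1
  have h4 : (mean (p * p) + μ ^ 2 * R) / (1 + μ * R) ^ 2 ≤ μ / (1 + μ * R) + ε := by
    have h5 : 0 < 1 + μ * R := by positivity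
    have h6 : 1 ≤ (1 + μ * R) ^ 2 := by
      have : 1 ≤ 1 + μ * R := by nlinarith [mul_nonneg hμ0 hR0]
      nlinarith
    have h7 : (1 + ε') * mean p ≤ (1 + ε') * (μ + ε') := mul_le_mul_of_nonneg_left hp3 (by linarith)
    have h8 : mean (p * p) ≤ μ + ε := by
      nlinarith
    rw [div_le_iff₀ hX]
    have h9 : (μ / (1 + μ * R) + ε) * (1 + μ * R) ^ 2 = μ * (1 + μ * R) + ε * (1 + μ * R) ^ 2 := by
      field_simp
    rw [h9]
    nlinarith
  intro η hη
  filter_upwards [h1 η hη, Pool.Agent.X289.RSD.log_atTop.eventually (eventually_ge_atTop 0)] with s h5 h6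
  exact ⟨h5.1, h5.2.trans (mul_le_mul_of_nonneg_right (by linarith) h6)⟩

end

/-- **All the places.** -/
theorem total {P : Type*} {q : P → ℕ} (hq : ∀ v, 1 < q v) (h : Nice q (fun _ _ => 1) 1) :
    ∃ C : ℝ, ∀ᶠ s : ℝ in 𝓝[>] 1, Summable (fun v => (q v : ℝ) ^ (-s)) ∧
      Real.log (1 / (s - 1)) - C ≤ ∑' v, (q v : ℝ) ^ (-s) := by
  obtain ⟨Λ, g1, g2, g3⟩ := h.order
  obtain ⟨C, hC⟩ := log_bound g1 g2 g3
  have hq0 : ∀ v, (0 : ℝ) < q v := fun v => by exact_mod_cast (hq v).le.trans_lt' Nat.zero_lt_one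
  have hq2 : ∀ v, (2 : ℝ) ≤ q v := fun v => by exact_mod_cast hq v
  have hcast : ∀ (s : ℝ) v, ((q v : ℕ) : ℂ) ^ (-(s : ℂ)) = (((q v : ℝ) ^ (-s) : ℝ) : ℂ) := by
    intro s v
    rw [Complex.ofReal_cpow (hq0 v).le]
    push_cast
    rfl
  have hterm : ∀ (s : ℝ) (x : P × ℕ), term q (fun _ _ => 1) s x =
      ((((q x.1 : ℝ) ^ (-s)) ^ (x.2 + 1) / ((x.2 : ℝ) + 1) : ℝ) : ℂ) := by
    intro s x
    unfold term
    rw [hcast]
    push_cast
    ring
  have hsum : ∀ s : ℝ, 1 < s → Summable fun x : P × ℕ => ((q x.1 : ℝ) ^ (-s)) ^ (x.2 + 1) / ((x.2 : ℝ) + 1) := by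
    intro s hs
    rw [← Complex.summable_ofReal]
    exact (h.conv s hs).congr fun x => hterm s x
  have hsumv : ∀ s : ℝ, 1 < s → Summable fun v : P => (q v : ℝ) ^ (-s) := by
    intro s hs
    have h1 := (hsum s hs).comp_injective (i := fun v : P => (v, 0)) fun a b hab => (Prod.mk.inj hab).1
    exact h1.congr fun v => by simp
  have hsum2 := hsumv 2 (by norm_num)
  set D : ℝ := ∑' v, 2 * (q v : ℝ) ^ (-(2 : ℝ)) with hD
  refine ⟨C + D, ?_⟩
  filter_upwards [hC, self_mem_nhdsWithin] with s h1 h2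
  have hs1 : (1 : ℝ) < s := h2
  refine ⟨hsumv s hs1, ?_⟩
  have h3 := h1.2
  rw [Complex.norm_exp, Real.log_exp] at h3
  have h4 : (∑' x, term q (fun _ _ => 1) s x).re =
      ∑' x : P × ℕ, ((q x.1 : ℝ) ^ (-s)) ^ (x.2 + 1) / ((x.2 : ℝ) + 1) := by
    rw [tsum_congr (hterm s), ← Complex.ofReal_tsum, Complex.ofReal_re]
  rw [h4] at h3
  have h5 := (abs_le.1 h3).1
  -- split off the first terms
  have hqs : ∀ v, (q v : ℝ) ^ (-s) ≤ (q v : ℝ)⁻¹ := fun v => by
    rw [← Real.rpow_neg_one]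
    exact Real.rpow_le_rpow_of_exponent_le (by linarith [hq2 v]) (by linarith)
  have hqs0 : ∀ v, 0 ≤ (q v : ℝ) ^ (-s) := fun v => by have := hq0 v; positivity
  have hinner : ∀ v : P, ∑' k : ℕ, ((q v : ℝ) ^ (-s)) ^ (k + 1) / ((k : ℝ) + 1) ≤
      (q v : ℝ) ^ (-s) + 2 * (q v : ℝ) ^ (-(2 : ℝ)) := by
    intro v
    have h6 : Summable fun k : ℕ => ((q v : ℝ) ^ (-s)) ^ (k + 1) / ((k : ℝ) + 1) :=
      (hsum s hs1).comp_injective (i := fun k : ℕ => (v, k)) fun a b hab => (Prod.mk.inj hab).2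
    rw [h6.tsum_eq_zero_add]
    have h7 : ∑' k : ℕ, ((q v : ℝ) ^ (-s)) ^ (k + 1 + 1) / (((k + 1 : ℕ) : ℝ) + 1) ≤
        ∑' k : ℕ, (q v : ℝ) ^ (-(2 : ℝ)) * (1 / 2) ^ k := by
      refine Summable.tsum_le_tsum (fun k => ?_) ((summable_nat_add_iff 1).2 h6)
        ((summable_geometric_two).mul_left _)
      have h8 : ((q v : ℝ) ^ (-s)) ^ (k + 1 + 1) ≤ ((q v : ℝ)⁻¹) ^ (k + 1 + 1) :=
        pow_le_pow_left₀ (hqs0 v) (hqs v) _
      have h9 : ((q v : ℝ)⁻¹) ^ (k + 1 + 1) ≤ (q v : ℝ) ^ (-(2 : ℝ)) * (1 / 2) ^ k := by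
        have e1 : ((q v : ℝ)⁻¹) ^ (k + 1 + 1) = ((q v : ℝ)⁻¹) ^ 2 * ((q v : ℝ)⁻¹) ^ k := by ring
        have e2 : (q v : ℝ) ^ (-(2 : ℝ)) = ((q v : ℝ)⁻¹) ^ 2 := by
          rw [Real.rpow_neg (hq0 v).le]
          norm_cast
          rw [inv_pow]
          push_cast
          rfl
        rw [e1, e2]
        have h10 : (q v : ℝ)⁻¹ ≤ 1 / 2 := by
          rw [inv_le_comm₀ (hq0 v) (by norm_num)]
          simpa using hq2 v
        have h11 : (0 : ℝ) ≤ (q v : ℝ)⁻¹ := (inv_pos.2 (hq0 v)).le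
        gcongr
      refine (div_le_self (pow_nonneg (hqs0 v) _) ?_).trans (h8.trans h9)
      have : (0 : ℝ) ≤ ((k + 1 : ℕ) : ℝ) := Nat.cast_nonneg _
      linarith
    rw [tsum_mul_left, tsum_geometric_two] at h7
    simp only [zero_add, pow_one, CharP.cast_eq_zero, div_one]
    push_cast at h7 ⊢
    linarith
  have h6 : ∑' x : P × ℕ, ((q x.1 : ℝ) ^ (-s)) ^ (x.2 + 1) / ((x.2 : ℝ) + 1) ≤
      ∑' v, (q v : ℝ) ^ (-s) + D := by
    rw [(hsum s hs1).tsum_prod, hD, ← (hsumv s hs1).tsum_add (hsum2.mul_left 2)]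
    refine Summable.tsum_le_tsum hinner ?_ ((hsumv s hs1).add (hsum2.mul_left 2))
    exact (hsum s hs1).prod
  have h7 : ((-(1 : ℤ) : ℤ) : ℝ) * Real.log (s - 1) = Real.log (1 / (s - 1)) := by
    rw [one_div, Real.log_inv]
    push_cast
    ring
  rw [h7] at h5
  linarith

end Pool.Agent.H1.SatoTate
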