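import Pool.Agent.H1.SatoTate

set_option autoImplicit false

/-!
# Densities from twists with all the symmetric powers of a form
-/

namespace Pool.Agent.H1.SatoTate

open Filter Topology MeasureTheory
open Polynomial (X C)
open Pool.Agent.X289.Many (UD)
open Pool.Agent.X289.Lin (term lin)

theorem ud_of_forall {P : Type*} {q : P → ℕ} {B : Set P} {d : ℝ} (h : ∀ ε : ℝ, 0 < ε → UD q B (d + ε)) :
    UD q B d := by
  intro ε hε
  filter_upwards [h (ε / 2) (by linarith) (ε / 2) (by linarith)] with s hs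
  refine ⟨hs.1, hs.2.trans (le_of_eq ?_)⟩
  ring

/-- **Linear combinations of `Sym^n f × A_i` and `A_i × A_j`.** The polynomials are in `z + 1/z`. -/
theorem lin2 {P I : Type*} [Fintype I] [DecidableEq I] {q : P → ℕ} (hq : ∀ v, 1 < q v) {i0 : I}
    {z : P → ℂ} (hz : ∀ v, z v ≠ 0) {x : P → ℕ → ℝ} (hx : ∀ v k, ((x v k : ℝ) : ℂ) = z v ^ (k + 1) + (z v ^ (k + 1))⁻¹)
    {A : I → P → ℕ → ℂ}
    (hs : ∀ n i (s : ℝ), 1 < s → Summable (term q (fun v k => symTr n (z v ^ (k + 1)) * A i v k) s))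
    (hp : ∀ n i, ∃ Λ : ℂ → ℂ, MeromorphicAt Λ 1 ∧
      meromorphicOrderAt Λ 1 = (-(if n = 0 ∧ i = i0 then 1 else 0 : ℤ) : ℤ) ∧
      ∀ᶠ s in 𝓝 (1 : ℂ), (1 : ℝ) < s.re →
        Λ s = Complex.exp (∑' y, term q (fun v k => symTr n (z v ^ (k + 1)) * A i v k) s y))
    (hs' : ∀ i j (s : ℝ), 1 < s → Summable (term q (fun v k => A i v k * A j v k) s))
    (hp' : ∀ i j, ∃ Λ : ℂ → ℂ, MeromorphicAt Λ 1 ∧
      meromorphicOrderAt Λ 1 = (-(if i = j then 1 else 0 : ℤ) : ℤ) ∧
      ∀ᶠ s in 𝓝 (1 : ℂ), (1 : ℝ) < s.re →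
        Λ s = Complex.exp (∑' y, term q (fun v k => A i v k * A j v k) s y))
    (p : I → Polynomial ℝ) (M : I → I → ℝ) (G : P → ℕ → ℝ) (hG : ∀ v k, 0 ≤ G v k)
    (hGe : ∀ v k, (G v k : ℂ) = (∑ i, (((p i).eval (x v k) : ℝ) : ℂ) * A i v k) +
      ∑ i, ∑ j, (M i j : ℂ) * (A i v k * A j v k)) {B : Set P} {X : ℝ} (hX : 0 < X)
    (hB : ∀ v ∈ B, X ≤ G v 0) : UD q B ((mean (p i0) + ∑ i, M i i) / X) := by
  classical
  set D : Finset ℕ := Finset.univ.biUnion fun i => (co (p i)).support with hD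
  have hsub : ∀ i, (co (p i)).support ⊆ D := fun i => Finset.subset_biUnion_of_mem
    (fun i => (co (p i)).support) (Finset.mem_univ i)
  have hev : ∀ i v k, (((p i).eval (x v k) : ℝ) : ℂ) = ∑ n : D, (co (p i) n : ℂ) * symTr n (z v ^ (k + 1)) := by
    intro i v k
    conv_lhs => rw [← co_spec (p i)]
    rw [Finsupp.sum, Polynomial.eval_finsetSum]
    rw [Finset.sum_subset (hsub i)]
    · rw [← Finset.sum_coe_sort D]
      push_cast
      refine Finset.sum_congr rfl fun n _ => ?_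
      rw [Polynomial.eval_smul, smul_eq_mul]
      push_cast
      rw [S_eval (pow_ne_zero _ (hz v)) (hx v k)]
    · intro n _ hn
      rw [Finsupp.notMem_support_iff.1 hn]
      simp
  have h1 := lin (J := (D × I) ⊕ (I × I)) hq
    (f := Sum.elim (fun j v k => symTr j.1 (z v ^ (k + 1)) * A j.2 v k) (fun j v k => A j.1 v k * A j.2 v k))
    (e := Sum.elim (fun j => if (j.1 : ℕ) = 0 ∧ j.2 = i0 then 1 else 0) (fun j => if j.1 = j.2 then 1 else 0))
    (by
      rintro (j | j) s hs1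
      · exact hs j.1 j.2 s hs1
      · exact hs' j.1 j.2 s hs1)
    (by
      rintro (j | j)
      · exact hp j.1 j.2
      · exact hp' j.1 j.2)
    (Sum.elim (fun j => co (p j.2) j.1) (fun j => M j.1 j.2)) G hG
    (fun v k => by
      rw [hGe v k, Fintype.sum_sum_type, Fintype.sum_prod_type, Fintype.sum_prod_type]
      congr 1
      simp only [Sum.elim_inl]
      rw [Finset.sum_comm]
      refine Finset.sum_congr rfl fun i _ => ?_
      rw [hev, Finset.sum_mul]
      refine Finset.sum_congr rfl fun n _ => ?_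
      ring) (B := B) hX hB
  have h2 : (∑ j : (D × I) ⊕ (I × I), Sum.elim (fun j => co (p j.2) j.1) (fun j => M j.1 j.2) j *
      ((Sum.elim (fun j => if (j.1 : ℕ) = 0 ∧ j.2 = i0 then 1 else 0)
        (fun j => if j.1 = j.2 then 1 else 0) j : ℤ) : ℝ)) = mean (p i0) + ∑ i, M i i := by
    rw [Fintype.sum_sum_type, Fintype.sum_prod_type, Fintype.sum_prod_type]
    simp only [Sum.elim_inl, Sum.elim_inr]
    congr 1
    · rw [← co_zero]
      have e1 : ∀ n : D, (∑ i, co (p i) n * (((if ((n : ℕ) = 0 ∧ i = i0) then 1 else 0 : ℤ)) : ℝ)) =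
          if (n : ℕ) = 0 then co (p i0) n else 0 := by
        intro n
        by_cases hn : (n : ℕ) = 0
        · simp [hn]
        · simp [hn]
      rw [Finset.sum_congr rfl fun n _ => e1 n, Finset.sum_coe_sort D (fun n => if n = 0 then co (p i0) n else 0)]
      rw [Finset.sum_ite_eq' D 0]
      split_ifs with h
      · rfl
      · symm
        rw [← Finsupp.notMem_support_iff]
        exact fun h3 => h (hsub i0 h3)
    · refine Finset.sum_congr rfl fun i _ => ?_
      simp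
  rw [h2] at h1
  exact h1

end Pool.Agent.H1.SatoTate
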